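import Mathlib

/-!
# Apollonius circles in projective-metric planes: convex subsets of the Euclidean plane

Let `M` be a nonempty open convex subset of `ℝ ^ 2` with the restricted Euclidean metric. It is a projective-metric
plane in the sense of the problem (the metric is not assumed complete). It belongs to the class of Q1 (every circle is
an Apollonius set) if and only if `M` is unbounded. Moreover in every projective-metric plane `(M, d)`, `M` an open
convex subset of `ℝ ^ 2`, of the class, every circle is non-empty: so no plane in which the distances from one point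
are bounded belongs to the class.
-/

set_option autoImplicit false

namespace Pool.Agent.Results.MP_874adf_gt.ConvexEuclidean

open Set Topology

/-- The plane `ℝ ^ 2`. -/
abbrev E : Type := EuclideanSpace ℝ (Fin 2)

/-- `(M, d)` is a projective-metric plane whose point set `M` is an open convex subset of `ℝ ^ 2`: `d` is a metric on
`M`, it induces the usual topology, and `d x y + d y z = d x z` exactly when `y` lies on the segment from `x` to `z`. -/
structure IsProjectiveMetricPlane (M : Set E) (d : E → E → ℝ) : Prop where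
  nonempty : M.Nonempty
  isOpen : IsOpen M
  convex : Convex ℝ M
  zero_iff : ∀ x ∈ M, ∀ y ∈ M, d x y = 0 ↔ x = y
  symm : ∀ x ∈ M, ∀ y ∈ M, d x y = d y x
  triangle : ∀ x ∈ M, ∀ y ∈ M, ∀ z ∈ M, d x z ≤ d x y + d y z
  nhds : ∀ x ∈ M, ∀ s : Set E, s ∈ 𝓝 x ↔ ∃ ε : ℝ, 0 < ε ∧ {y | y ∈ M ∧ d x y < ε} ⊆ s
  geodesic : ∀ x ∈ M, ∀ y ∈ M, ∀ z ∈ M, d x y + d y z = d x z ↔ y ∈ segment ℝ x z

/-- The circle with centre `F` and radius `a`. -/
def circle (M : Set E) (d : E → E → ℝ) (F : E) (a : ℝ) : Set E := {X | X ∈ M ∧ d F X = a}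

/-- The Apollonius set of `A`, `B` with ratio `r`. -/
def apollonius (M : Set E) (d : E → E → ℝ) (A B : E) (r : ℝ) : Set E :=
  {C | C ∈ M ∧ C ≠ B ∧ d A C / d C B = r}

/-- `(M, d)` is a projective-metric plane in which every circle is an Apollonius set. -/
def InClass (M : Set E) (d : E → E → ℝ) : Prop :=
  IsProjectiveMetricPlane M d ∧ ∀ F ∈ M, ∀ a : ℝ, 0 < a →
    ∃ A ∈ M, ∃ B ∈ M, ∃ r : ℝ, A ≠ B ∧ 0 < r ∧ r ≠ 1 ∧ circle M d F a = apollonius M d A B r

variable {M : Set E} {d : E → E → ℝ}

lemma self (hd : IsProjectiveMetricPlane M d) {x : E} (hx : x ∈ M) : d x x = 0 := (hd.zero_iff x hx x hx).mpr rfl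

lemma nonneg (hd : IsProjectiveMetricPlane M d) {x y : E} (hx : x ∈ M) (hy : y ∈ M) : 0 ≤ d x y := by
  have h1 := hd.triangle x hx y hy x hx
  rw [self hd hx, hd.symm y hy x hx] at h1
  linarith

lemma pos (hd : IsProjectiveMetricPlane M d) {x y : E} (hx : x ∈ M) (hy : y ∈ M) (h : x ≠ y) : 0 < d x y :=
  lt_of_le_of_ne (nonneg hd hx hy) (fun h1 => h ((hd.zero_iff x hx y hy).mp h1.symm))

/-- Apollonius sets are not empty. -/
lemma apollonius_nonempty (hd : IsProjectiveMetricPlane M d) {A B : E} (hA : A ∈ M) (hB : B ∈ M) (hAB : A ≠ B)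
    {r : ℝ} (hr : 0 < r) : (apollonius M d A B r).Nonempty := by
  set γ : ℝ → E := fun t => A + t • (B - A) with hγ
  have hγc : Continuous γ := by fun_prop
  have hγM : ∀ t ∈ Icc (0 : ℝ) 1, γ t ∈ M := by
    intro t ht
    have h1 := hd.convex hA hB (sub_nonneg.mpr ht.2) ht.1 (by ring)
    have h2 : γ t = (1 - t) • A + t • B := by
      simp only [hγ]
      module
    rw [h2]
    exact h1
  set g : ℝ → ℝ := fun t => d A (γ t) - r * d (γ t) B with hg
  have hgc : ContinuousOn g (Icc 0 1) := by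
    intro t ht
    rw [ContinuousWithinAt, Metric.tendsto_nhds]
    intro ε hε
    have hr1 : 0 < 1 + r := by linarith
    have h1 : {y | y ∈ M ∧ d (γ t) y < ε / (1 + r)} ∈ 𝓝 (γ t) :=
      (hd.nhds (γ t) (hγM t ht) _).mpr ⟨ε / (1 + r), div_pos hε hr1, subset_rfl⟩
    have h2 : ∀ᶠ s in 𝓝[Icc 0 1] t, γ s ∈ {y | y ∈ M ∧ d (γ t) y < ε / (1 + r)} :=
      (hγc.continuousWithinAt (s := Icc 0 1) (x := t)) h1
    filter_upwards [h2] with s hs
    obtain ⟨hsM, hs⟩ := hs
    have htM := hγM t ht
    rw [Real.dist_eq]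
    have t1 := hd.triangle A hA (γ s) hsM (γ t) htM
    have t2 := hd.triangle A hA (γ t) htM (γ s) hsM
    have t3 := hd.triangle (γ s) hsM (γ t) htM B hB
    have t4 := hd.triangle (γ t) htM (γ s) hsM B hB
    have t5 := hd.symm (γ s) hsM (γ t) htM
    rw [t5] at t1 t3
    have u1 : r * d (γ s) B ≤ r * (d (γ t) (γ s) + d (γ t) B) := mul_le_mul_of_nonneg_left t3 hr.le
    have u2 : r * d (γ t) B ≤ r * (d (γ t) (γ s) + d (γ s) B) := mul_le_mul_of_nonneg_left t4 hr.le
    have u3 : |g s - g t| ≤ (1 + r) * d (γ t) (γ s) := by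
      rw [abs_le]
      constructor <;> simp only [hg] <;> linarith
    refine lt_of_le_of_lt u3 ?_
    rw [lt_div_iff₀ hr1] at hs
    linarith
  have hγ0 : γ 0 = A := by simp [hγ]
  have hγ1 : γ 1 = B := by simp [hγ]
  have hg0 : g 0 < 0 := by
    simp only [hg, hγ0, self hd hA]
    have := mul_pos hr (pos hd hA hB hAB)
    linarith
  have hg1 : 0 < g 1 := by
    simp only [hg, hγ1, self hd hB]
    have := pos hd hA hB hAB
    linarith
  obtain ⟨t, ht, ht0⟩ := intermediate_value_Icc zero_le_one hgc ⟨hg0.le, hg1.le⟩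
  have htM := hγM t ht
  have hne : γ t ≠ B := by
    intro h
    simp only [hg, h, self hd hB] at ht0
    have := pos hd hA hB hAB
    linarith
  refine ⟨γ t, htM, hne, ?_⟩
  rw [div_eq_iff (pos hd htM hB hne).ne']
  simp only [hg] at ht0
  linarith

/-- Nonempty open convex sets with the Euclidean metric are projective-metric planes. -/
lemma euclidean (hM : M.Nonempty) (ho : IsOpen M) (hc : Convex ℝ M) :
    IsProjectiveMetricPlane M (fun x y => dist x y) where
  nonempty := hM
  isOpen := ho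
  convex := hc
  zero_iff x _ y _ := dist_eq_zero
  symm x _ y _ := dist_comm x y
  triangle x _ y _ z _ := dist_triangle x y z
  nhds x hx s := by
    constructor
    · intro hs
      obtain ⟨ε, hε, h⟩ := Metric.mem_nhds_iff.mp hs
      exact ⟨ε, hε, fun y hy => h (by rw [Metric.mem_ball, dist_comm]; exact hy.2)⟩
    · rintro ⟨ε, hε, h⟩
      refine Filter.mem_of_superset (Filter.inter_mem (ho.mem_nhds hx) (Metric.ball_mem_nhds x hε)) ?_
      rintro y ⟨hy1, hy2⟩
      exact h ⟨hy1, by rw [Metric.mem_ball, dist_comm] at hy2; exact hy2⟩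
  geodesic x _ y _ z _ := by
    rw [mem_segment_iff_wbtw]
    exact dist_add_dist_eq_iff

/-- An unbounded open convex set contains, with every point `F`, a ray from `F`. -/
lemma exists_ray (ho : IsOpen M) (hc : Convex ℝ M) (hb : ¬ Bornology.IsBounded M) {F : E} (hF : F ∈ M) :
    ∃ v : E, ‖v‖ = 1 ∧ ∀ t : ℝ, 0 < t → F + t • v ∈ M := by
  have h1 : ∀ n : ℕ, ∃ x ∈ M, (n : ℝ) + 1 < ‖x - F‖ := by
    intro n
    by_contra hcon
    push Not at hcon
    apply hb
    rw [isBounded_iff_forall_norm_le]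
    refine ⟨(n : ℝ) + 1 + ‖F‖, fun x hx => ?_⟩
    have h2 := hcon x hx
    have h3 : ‖x‖ ≤ ‖x - F‖ + ‖F‖ := by
      have := norm_add_le (x - F) F
      rwa [sub_add_cancel] at this
    linarith
  choose x hx hxn using h1
  have hpos : ∀ n, 0 < ‖x n - F‖ := fun n => by
    have := hxn n
    have h3 : (0 : ℝ) ≤ n := Nat.cast_nonneg n
    linarith
  set u : ℕ → E := fun n => (‖x n - F‖)⁻¹ • (x n - F) with hu
  have hus : ∀ n, u n ∈ Metric.sphere (0 : E) 1 := by
    intro n
    rw [mem_sphere_zero_iff_norm]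
    simp only [hu]
    rw [norm_smul, norm_inv, norm_norm, inv_mul_cancel₀ (hpos n).ne']
  obtain ⟨v, hv, φ, hφ, hlim⟩ := (isCompact_sphere (0 : E) 1).tendsto_subseq hus
  have hcl : ∀ t : ℝ, 0 < t → F + t • v ∈ closure M := by
    intro t ht
    have h2 : Filter.Tendsto (fun n => F + t • u (φ n)) Filter.atTop (𝓝 (F + t • v)) :=
      (hlim.const_smul t).const_add F
    refine mem_closure_of_tendsto h2 ?_
    obtain ⟨N, hN⟩ := exists_nat_gt t
    filter_upwards [Filter.eventually_ge_atTop N] with n hn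
    have h3 : (N : ℝ) ≤ φ n := by exact_mod_cast hn.trans hφ.le_apply
    have h4 : t ≤ ‖x (φ n) - F‖ := by linarith [hxn (φ n)]
    have h5 : F + t • u (φ n) = (1 - t * (‖x (φ n) - F‖)⁻¹) • F + (t * (‖x (φ n) - F‖)⁻¹) • x (φ n) := by
      simp only [hu]
      module
    rw [h5]
    have h6 : 0 ≤ t * (‖x (φ n) - F‖)⁻¹ := mul_nonneg ht.le (inv_nonneg.mpr (hpos _).le)
    have h7 : t * (‖x (φ n) - F‖)⁻¹ ≤ 1 := by
      rw [← div_eq_mul_inv, div_le_one (hpos _)]
      exact h4
    exact hc hF (hx _) (sub_nonneg.mpr h7) h6 (by ring)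
  refine ⟨v, mem_sphere_zero_iff_norm.mp hv, fun t ht => ?_⟩
  have h2 := hc.combo_interior_closure_mem_interior (x := F) (y := F + (2 * t) • v)
    (by rw [ho.interior_eq]; exact hF) (hcl (2 * t) (by linarith)) (a := 1 / 2) (b := 1 / 2)
    (by norm_num) (by norm_num) (by norm_num)
  rw [ho.interior_eq] at h2
  have h3 : F + t • v = (1 / 2 : ℝ) • F + (1 / 2 : ℝ) • (F + (2 * t) • v) := by
    module
  rw [h3]
  exact h2

/-- **Planes of the class of Q1 inside the Euclidean plane.** (1) In every projective-metric plane `(M, d)`, `M` an open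
convex subset of `ℝ ^ 2`, in which every circle is an Apollonius set, every circle is non-empty. (2) For a nonempty open
convex `M` with the Euclidean metric, every circle is an Apollonius set if and only if `M` is unbounded. -/
theorem result :
    (∀ (M : Set E) (d : E → E → ℝ), InClass M d → ∀ F ∈ M, ∀ a : ℝ, 0 < a → (circle M d F a).Nonempty) ∧
    (∀ M : Set E, M.Nonempty → IsOpen M → Convex ℝ M →
      (InClass M (fun x y => dist x y) ↔ ¬ Bornology.IsBounded M)) := by
  have h1 : ∀ (M : Set E) (d : E → E → ℝ), InClass M d → ∀ F ∈ M, ∀ a : ℝ, 0 < a →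
      (circle M d F a).Nonempty := by
    rintro M d ⟨hd, h⟩ F hF a ha
    obtain ⟨A, hA, B, hB, r, hAB, hr, -, heq⟩ := h F hF a ha
    rw [heq]
    exact apollonius_nonempty hd hA hB hAB hr
  refine ⟨h1, fun M hM ho hc => ⟨fun h hb => ?_, fun hb => ⟨euclidean hM ho hc, ?_⟩⟩⟩
  · obtain ⟨F, hF⟩ := hM
    obtain ⟨R, hR⟩ := Metric.isBounded_iff.mp hb
    obtain ⟨X, hX, hX'⟩ := h1 M _ h F hF (|R| + 1) (by positivity)
    have h2 := hR hF hX
    have h3 : dist F X = |R| + 1 := hX'
    linarith [le_abs_self R]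
  · intro F hF a ha
    obtain ⟨v, hv, hray⟩ := exists_ray ho hc hb hF
    refine ⟨F + (a / 2) • v, hray _ (by positivity), F + (2 * a) • v, hray _ (by positivity), 1 / 2, ?_, by norm_num,
      by norm_num, ?_⟩
    · intro h
      have h2 : (a / 2 - 2 * a) • v = 0 := by
        have h3 := add_left_cancel h
        rw [sub_smul, h3, sub_self]
      rcases smul_eq_zero.mp h2 with h3 | h3
      · linarith
      · rw [h3, norm_zero] at hv
        norm_num at hv
    · ext C
      set w : E := C - F with hw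
      have hd1 : dist F C = ‖w‖ := by rw [dist_comm, dist_eq_norm]
      have hd2 : dist (F + (a / 2) • v) C = ‖w - (a / 2) • v‖ := by
        rw [dist_comm, dist_eq_norm]
        congr 1
        simp only [hw]
        abel
      have hd3 : dist C (F + (2 * a) • v) = ‖w - (2 * a) • v‖ := by
        rw [dist_eq_norm]
        congr 1
        simp only [hw]
        abel
      have e2 : ‖w - (a / 2) • v‖ ^ 2 = ‖w‖ ^ 2 - a * inner ℝ w v + a ^ 2 / 4 := by
        rw [norm_sub_sq_real, inner_smul_right, norm_smul, hv, Real.norm_eq_abs, abs_of_pos (by positivity)]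
        ring
      have e3 : ‖w - (2 * a) • v‖ ^ 2 = ‖w‖ ^ 2 - 4 * a * inner ℝ w v + 4 * a ^ 2 := by
        rw [norm_sub_sq_real, inner_smul_right, norm_smul, hv, Real.norm_eq_abs, abs_of_pos (by positivity)]
        ring
      constructor
      · rintro ⟨hC, hC'⟩
        have hC2 : ‖w‖ = a := by rw [← hd1]; exact hC'
        have hne : C ≠ F + (2 * a) • v := by
          intro h
          have h4 : w = (2 * a) • v := by rw [hw, h]; abel
          rw [h4, norm_smul, hv, Real.norm_eq_abs, abs_of_pos (by positivity)] at hC2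
          linarith
        refine ⟨hC, hne, ?_⟩
        show dist (F + (a / 2) • v) C / dist C (F + (2 * a) • v) = 1 / 2
        have hp : 0 < dist C (F + (2 * a) • v) := dist_pos.mpr hne
        rw [div_eq_iff hp.ne', hd2, hd3]
        rw [hC2] at e2 e3
        have h5 : ‖w - (a / 2) • v‖ ^ 2 = (1 / 2 * ‖w - (2 * a) • v‖) ^ 2 := by
          rw [mul_pow, e2, e3]
          ring
        exact (sq_eq_sq₀ (norm_nonneg _) (by positivity)).mp h5
      · rintro ⟨hC, hne, hC'⟩
        refine ⟨hC, ?_⟩
        show dist F C = a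
        have hC2 : dist (F + (a / 2) • v) C / dist C (F + (2 * a) • v) = 1 / 2 := hC'
        have hp : 0 < dist C (F + (2 * a) • v) := dist_pos.mpr hne
        rw [div_eq_iff hp.ne', hd2, hd3] at hC2
        rw [hC2, mul_pow, e3] at e2
        rw [hd1]
        have h6 : ‖w‖ ^ 2 = a ^ 2 := by linarith
        exact (sq_eq_sq₀ (norm_nonneg _) ha.le).mp h6

end Pool.Agent.Results.MP_874adf_gt.ConvexEuclidean
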