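import Mathlib

/-!
# Apollonius circles in projective-metric planes: no plane of elliptic type

A projective-metric plane whose underlying set is the real projective plane: a metric `d` for which every projective
line, with the restricted metric, is a closed geodesic, all of the same length `L` (that is, isometric to the circle
`AddCircle L` of length `L` with its arc length metric). We prove that for EVERY point `F` the circle with centre `F` and
radius `L / 2` is non-empty and is not an Apollonius set.

Proof: `f C = d A C - r d C B` is negative at `A`, positive at `B`. If its zero set is the circle of radius `L / 2`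
about `F`, which is the set of the points farthest from `F`, then `A` and `B` have distance less than `L / 2` from `F` and
can be joined to `F` by arcs of lines in the complement of the circle, where `f` has no zero; so `f F` is both negative
and positive. (The complement of an Apollonius set is not connected, that of the circle is.)
-/

set_option autoImplicit false

namespace Pool.Agent.Results.MP_874adf_gt.NoEllipticPlane

open Set

/-- The real projective plane. -/
abbrev P2 : Type := Projectivization ℝ (Fin 3 → ℝ)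

/-- The projective line of a plane `W` through the origin of `ℝ ^ 3`. -/
def line (W : Submodule ℝ (Fin 3 → ℝ)) : Set P2 := {x | x.submodule ≤ W}

/-- `d` is a metric. -/
structure IsMetric (d : P2 → P2 → ℝ) : Prop where
  zero_iff : ∀ x y, d x y = 0 ↔ x = y
  symm : ∀ x y, d x y = d y x
  triangle : ∀ x y z, d x z ≤ d x y + d y z

/-- `d` is a projective metric on the projective plane: every projective line with the restricted metric is isometric
to the circle of length `L`. -/
def IsProjectiveMetric (d : P2 → P2 → ℝ) (L : ℝ) : Prop :=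
  IsMetric d ∧ 0 < L ∧ ∀ W : Submodule ℝ (Fin 3 → ℝ), Module.finrank ℝ W = 2 →
    ∃ e : AddCircle L → P2, range e = line W ∧ ∀ s t, d (e s) (e t) = ‖s - t‖

/-- The circle with centre `F` and radius `a`. -/
def circle (d : P2 → P2 → ℝ) (F : P2) (a : ℝ) : Set P2 := {X | d F X = a}

/-- The Apollonius set of `A`, `B` with ratio `r`. -/
def apollonius (d : P2 → P2 → ℝ) (A B : P2) (r : ℝ) : Set P2 := {C | C ≠ B ∧ d A C / d C B = r}

variable {d : P2 → P2 → ℝ} {L : ℝ}

lemma IsMetric.self (hd : IsMetric d) (x : P2) : d x x = 0 := (hd.zero_iff x x).mpr rfl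

lemma IsMetric.nonneg (hd : IsMetric d) (x y : P2) : 0 ≤ d x y := by
  have h1 := hd.triangle x y x
  rw [hd.self, hd.symm y x] at h1
  linarith

lemma IsMetric.pos (hd : IsMetric d) {x y : P2} (h : x ≠ y) : 0 < d x y :=
  lt_of_le_of_ne (hd.nonneg x y) (fun h1 => h ((hd.zero_iff x y).mp h1.symm))

lemma exists_line {x y : P2} (h : x ≠ y) :
    ∃ W : Submodule ℝ (Fin 3 → ℝ), Module.finrank ℝ W = 2 ∧ x ∈ line W ∧ y ∈ line W := by
  refine ⟨x.submodule ⊔ y.submodule, ?_, show x.submodule ≤ _ from le_sup_left, show y.submodule ≤ _ from le_sup_right⟩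
  have h1 := Submodule.finrank_sup_add_finrank_inf_eq x.submodule y.submodule
  rw [x.finrank_submodule, y.finrank_submodule] at h1
  have h2 : Module.finrank ℝ ↥(x.submodule ⊓ y.submodule) = 0 := by
    by_contra h3
    have h4 : 1 ≤ Module.finrank ℝ ↥(x.submodule ⊓ y.submodule) := by omega
    have h5 : x.submodule ⊓ y.submodule = x.submodule :=
      Submodule.eq_of_le_of_finrank_le inf_le_left (by rw [x.finrank_submodule]; exact h4)
    have h6 : x.submodule ⊓ y.submodule = y.submodule :=
      Submodule.eq_of_le_of_finrank_le inf_le_right (by rw [y.finrank_submodule]; exact h4)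
    exact h (Projectivization.submodule_injective (h5.symm.trans h6))
  omega

lemma exists_rep (s : AddCircle L) : ∃ x : ℝ, (x : AddCircle L) = s ∧ |x| = ‖s‖ := by
  obtain ⟨y, rfl⟩ := QuotientAddGroup.mk_surjective s
  refine ⟨y - round (L⁻¹ * y) * L, ?_, ?_⟩
  · have : ((round (L⁻¹ * y) * L : ℝ) : AddCircle L) = 0 := by
      rw [AddCircle.coe_eq_zero_iff]
      exact ⟨round (L⁻¹ * y), by simp⟩
    rw [AddCircle.coe_sub, this, sub_zero]
  · exact (AddCircle.norm_eq L (x := y)).symm

/-- two different points are joined by an arc of a line which does not leave the ball -/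
lemma exists_arc (hd : IsProjectiveMetric d L) {F X : P2} (h : F ≠ X) :
    ∃ γ : ℝ → P2, γ 0 = F ∧ γ 1 = X ∧ (∀ s t, d (γ s) (γ t) ≤ d F X * |s - t|) := by
  obtain ⟨W, hW, hF, hX⟩ := exists_line h
  obtain ⟨e, he, hiso⟩ := hd.2.2 W hW
  rw [← he] at hF hX
  obtain ⟨s0, rfl⟩ := hF
  obtain ⟨s1, rfl⟩ := hX
  obtain ⟨x, hx, hx'⟩ := exists_rep (s1 - s0)
  refine ⟨fun t => e (s0 + ((t * x : ℝ) : AddCircle L)), by simp, ?_, ?_⟩
  · show e (s0 + ((1 * x : ℝ) : AddCircle L)) = e s1
    rw [one_mul, hx, add_sub_cancel]
  · intro s t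
    show d (e _) (e _) ≤ _
    rw [hiso, hiso, add_sub_add_left_eq_sub, ← AddCircle.coe_sub, ← norm_neg (s0 - s1), neg_sub, ← hx']
    have h1 : ‖((s * x - t * x : ℝ) : AddCircle L)‖ ≤ |s * x - t * x| := QuotientAddGroup.norm_mk_le_norm
    refine h1.trans (le_of_eq ?_)
    rw [← sub_mul, abs_mul, mul_comm]

lemma le_half (hd : IsProjectiveMetric d L) (F X : P2) : d F X ≤ L / 2 := by
  rcases eq_or_ne F X with rfl | h
  · rw [hd.1.self]
    linarith [hd.2.1]
  · obtain ⟨W, hW, hF, hX⟩ := exists_line h
    obtain ⟨e, he, hiso⟩ := hd.2.2 W hW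
    rw [← he] at hF hX
    obtain ⟨s0, rfl⟩ := hF
    obtain ⟨s1, rfl⟩ := hX
    rw [hiso]
    have := AddCircle.norm_le_half_period L (x := s0 - s1) hd.2.1.ne'
    rwa [abs_of_pos hd.2.1] at this

lemma circle_nonempty (hd : IsProjectiveMetric d L) (F : P2) : (circle d F (L / 2)).Nonempty := by
  obtain ⟨X, hX⟩ : ∃ X : P2, F ≠ X := by
    by_contra hcon
    push Not at hcon
    have h0 : (![1, 0, 0] : Fin 3 → ℝ) ≠ 0 := fun h => by simpa using congrFun h 0
    have h1 : (![0, 1, 0] : Fin 3 → ℝ) ≠ 0 := fun h => by simpa using congrFun h 1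
    have h2 : Projectivization.mk ℝ _ h0 = Projectivization.mk ℝ _ h1 := (hcon _).symm.trans (hcon _)
    rw [Projectivization.mk_eq_mk_iff'] at h2
    obtain ⟨a, ha⟩ := h2
    simpa using congrFun ha 0
  obtain ⟨W, hW, hF, -⟩ := exists_line hX
  obtain ⟨e, he, hiso⟩ := hd.2.2 W hW
  rw [← he] at hF
  obtain ⟨s0, rfl⟩ := hF
  refine ⟨e (s0 - ((L / 2 : ℝ) : AddCircle L)), ?_⟩
  show d (e s0) (e _) = L / 2
  rw [hiso, sub_sub_cancel, AddCircle.norm_half_period_eq, abs_of_pos hd.2.1]

/-- the sign of `f` is constant in the ball if `f` has no zero there -/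
lemma same_sign (hd : IsProjectiveMetric d L) {A B F X : P2} {r : ℝ} (hr : 0 < r)
    (hX : d F X < L / 2) (hz : ∀ C, d F C < L / 2 → d A C - r * d C B ≠ 0) :
    0 < (d A F - r * d F B) * (d A X - r * d X B) := by
  rcases eq_or_ne F X with rfl | h
  · exact mul_self_pos.mpr (hz F hX)
  obtain ⟨γ, h0, h1, hγ⟩ := exists_arc hd h
  set g : ℝ → ℝ := fun t => d A (γ t) - r * d (γ t) B with hg
  have hlip : ∀ s t, |g s - g t| ≤ ((1 + r) * d F X) * |s - t| := by
    intro s t
    have t1 := hd.1.triangle A (γ s) (γ t)
    have t2 := hd.1.triangle A (γ t) (γ s)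
    have t3 := hd.1.triangle (γ s) (γ t) B
    have t4 := hd.1.triangle (γ t) (γ s) B
    have t5 := hd.1.symm (γ t) (γ s)
    have t6 := hγ s t
    rw [t5] at t2 t4
    have u1 : r * d (γ s) B ≤ r * (d (γ s) (γ t) + d (γ t) B) := mul_le_mul_of_nonneg_left t3 hr.le
    have u2 : r * d (γ t) B ≤ r * (d (γ s) (γ t) + d (γ s) B) := mul_le_mul_of_nonneg_left t4 hr.le
    have u3 : |g s - g t| ≤ (1 + r) * d (γ s) (γ t) := by
      rw [abs_le]
      constructor <;> simp only [hg] <;> linarith
    refine u3.trans ?_
    rw [mul_assoc]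
    exact mul_le_mul_of_nonneg_left t6 (by linarith)
  have hK : 0 ≤ (1 + r) * d F X := mul_nonneg (by linarith) (hd.1.nonneg _ _)
  have hc : Continuous g := by
    have : LipschitzWith ⟨(1 + r) * d F X, hK⟩ g := LipschitzWith.of_dist_le_mul (fun s t => hlip s t)
    exact this.continuous
  have hne : ∀ t ∈ Icc (0 : ℝ) 1, g t ≠ 0 := by
    intro t ht
    apply hz
    have h2 := hγ 0 t
    rw [h0] at h2
    refine lt_of_le_of_lt h2 (lt_of_le_of_lt ?_ hX)
    apply mul_le_of_le_one_right (hd.1.nonneg _ _)
    rw [zero_sub, abs_neg, abs_of_nonneg ht.1]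
    exact ht.2
  have hg0 : g 0 = d A F - r * d F B := by simp only [hg, h0]
  have hg1 : g 1 = d A X - r * d X B := by simp only [hg, h1]
  rw [← hg0, ← hg1]
  by_contra hcon
  push Not at hcon
  have h3 : (0 : ℝ) ∈ uIcc (g 0) (g 1) := by
    rw [mem_uIcc]
    rcases le_total 0 (g 0) with h4 | h4
    · right
      refine ⟨?_, h4⟩
      by_contra h5
      push Not at h5
      have h6 : 0 < g 0 := lt_of_le_of_ne h4 (fun h => hne 0 ⟨le_rfl, zero_le_one⟩ h.symm)
      exact absurd hcon (not_le.mpr (mul_pos h6 h5))
    · left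
      refine ⟨h4, ?_⟩
      by_contra h5
      push Not at h5
      have h6 : g 0 < 0 := lt_of_le_of_ne h4 (hne 0 ⟨le_rfl, zero_le_one⟩)
      exact absurd hcon (not_le.mpr (mul_pos_of_neg_of_neg h6 h5))
  obtain ⟨t, ht, ht0⟩ := intermediate_value_uIcc hc.continuousOn h3
  rw [uIcc_of_le zero_le_one] at ht
  exact hne t ht ht0

/-- **No projective-metric plane on the whole real projective plane has the property of the question.** For every
projective metric `d` on the real projective plane (every line isometric to the circle of length `L`) and every point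
`F`, the circle with centre `F` and radius `L / 2` is non-empty and is not an Apollonius set. -/
theorem result (d : P2 → P2 → ℝ) (L : ℝ) (hd : IsProjectiveMetric d L) (F : P2) :
    (circle d F (L / 2)).Nonempty ∧
      ∀ (A B : P2) (r : ℝ), A ≠ B → 0 < r → circle d F (L / 2) ≠ apollonius d A B r := by
  refine ⟨circle_nonempty hd F, fun A B r hAB hr heq => ?_⟩
  have hz : ∀ C, d F C < L / 2 → d A C - r * d C B ≠ 0 := by
    intro C hC h0
    have hCB : C ≠ B := by
      rintro rfl
      rw [hd.1.self, mul_zero, sub_zero] at h0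
      exact hAB ((hd.1.zero_iff _ _).mp h0)
    have h1 : C ∈ apollonius d A B r := by
      refine ⟨hCB, ?_⟩
      rw [div_eq_iff (hd.1.pos hCB).ne']
      linarith
    rw [← heq] at h1
    have h2 : d F C = L / 2 := h1
    linarith
  have hA : d F A < L / 2 := by
    refine lt_of_le_of_ne (le_half hd F A) (fun h => ?_)
    have h1 : A ∈ apollonius d A B r := by
      rw [← heq]
      exact h
    have h2 := h1.2
    rw [hd.1.self, zero_div] at h2
    linarith
  have hB : d F B < L / 2 := by
    refine lt_of_le_of_ne (le_half hd F B) (fun h => ?_)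
    have h1 : B ∈ apollonius d A B r := by
      rw [← heq]
      exact h
    exact h1.1 rfl
  have sA := same_sign hd hr hA hz
  have sB := same_sign hd hr hB hz
  rw [hd.1.self A] at sA
  rw [hd.1.self B] at sB
  have hAB' := hd.1.pos hAB
  have n1 : 0 < r * d A B := mul_pos hr hAB'
  have n2 : d A F - r * d F B < 0 := by
    by_contra h
    push Not at h
    nlinarith
  have n3 : 0 < d A F - r * d F B := by
    by_contra h
    push Not at h
    nlinarith
  linarith

end Pool.Agent.Results.MP_874adf_gt.NoEllipticPlane
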